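import Pool.Agent.Helper51.PF.Goals

/-!
Project PF (MP_c27e85_nt), packet STR.
-/

namespace Pool.Agent.Helper20.PF

open Finset Pool.Agent.Helper51.PF

theorem pr_congr {Ω Ω' : Type} [Fintype Ω] [Fintype Ω'] (E : Ω ≃ Ω') (A : Ω → Prop)
    (B : Ω' → Prop) (h : ∀ x, A x ↔ B (E x)) : pr A = pr B := by
  classical
  unfold pr
  rw [Fintype.card_congr E]
  congr 2
  refine Finset.card_bij (fun x _ => E x) ?_ (fun x _ y _ h => E.injective h) ?_
  · intro x hx
    simp only [Finset.mem_filter, Finset.mem_univ, true_and] at hx ⊢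
    exact (h x).1 hx
  · intro y hy
    simp only [Finset.mem_filter, Finset.mem_univ, true_and] at hy
    refine ⟨E.symm y, ?_, by simp⟩
    simp only [Finset.mem_filter, Finset.mem_univ, true_and]
    exact (h _).2 (by simpa using hy)

section

variable {p s : ℕ}

theorem xx_mono (h : ∀ j, xx p s (j + 1) = xx p s j + s) (hs : 1 ≤ s) :
    StrictMono (xx p s) :=
  strictMono_nat_of_lt_succ fun j => by
    rw [h]
    omega

/-- The moved residues up to `m`. -/
theorem filter_eq (hMV : G_MV) (hh1 : 1 ≤ hh p) (hs : 1 ≤ s) (m : ℕ) :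
    rr p s m ≤ kk p s ∧
    (Finset.Icc 1 m).filter (· ∈ moved p s) = (Finset.range (rr p s m)).image (xx p s) := by
  obtain ⟨h1, h2, h3, h4, h5, h6, h7⟩ := hMV p s hh1 hs
  have hmono := xx_mono h6 hs
  have hr : rr p s m ≤ kk p s := by
    rw [← h2]
    exact Finset.card_filter_le _ _
  refine ⟨hr, ?_⟩
  obtain ⟨g1, g2⟩ := (h7 m (rr p s m) hr).1 rfl
  ext i
  simp only [Finset.mem_filter, Finset.mem_Icc, Finset.mem_image, Finset.mem_range]
  constructor
  · rintro ⟨⟨hi1, hi2⟩, hi3⟩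
    rw [h1] at hi3
    obtain ⟨j, hj, rfl⟩ := Finset.mem_image.1 hi3
    refine ⟨j, ?_, rfl⟩
    by_contra hlt
    have hj' := Finset.mem_range.1 hj
    rcases g2 with g2 | g2
    · omega
    · have := hmono.monotone (not_lt.1 hlt)
      omega
  · rintro ⟨j, hj, rfl⟩
    have hjm : xx p s j ∈ moved p s := by
      rw [h1]
      exact Finset.mem_image_of_mem _ (Finset.mem_range.2 (by omega))
    have hj1 : 1 ≤ xx p s j := by
      have := (Finset.mem_filter.1 hjm).1
      exact (Finset.mem_Icc.1 this).1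
    refine ⟨⟨hj1, ?_⟩, hjm⟩
    rcases g1 with g1 | g1
    · omega
    · have := hmono.monotone (show j ≤ rr p s m - 1 by omega)
      omega

/-- The bijection `j ↦ x_j`. -/
noncomputable def eqv (hMV : G_MV) (hh1 : 1 ≤ hh p) (hs : 1 ≤ s) : Fin (kk p s) ≃ moved p s :=
  Equiv.ofBijective (fun j => ⟨xx p s j, by
    rw [(hMV p s hh1 hs).1]
    exact Finset.mem_image_of_mem _ (Finset.mem_range.2 j.2)⟩) (by
    have hmono := xx_mono (hMV p s hh1 hs).2.2.2.2.2.1 hs
    constructor
    · intro i j h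
      exact Fin.ext (hmono.injective (congrArg Subtype.val h))
    · rintro ⟨x, hx⟩
      rw [(hMV p s hh1 hs).1] at hx
      obtain ⟨j, hj, rfl⟩ := Finset.mem_image.1 hx
      exact ⟨⟨j, Finset.mem_range.1 hj⟩, rfl⟩)

theorem eqv_val (hMV : G_MV) (hh1 : 1 ≤ hh p) (hs : 1 ≤ s) (j : Fin (kk p s)) :
    ((eqv hMV hh1 hs j : moved p s) : ℕ) = xx p s j := rfl

theorem prod_range {M : Type} [CommMonoid M] {k r : ℕ} (hr : r ≤ k) (f : ℕ → M) :
    ∏ j ∈ Finset.range r, f j = ∏ j ∈ Finset.univ.filter (fun i : Fin k => (i : ℕ) < r), f j := by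
  have h : Finset.range r = (Finset.univ.filter (fun i : Fin k => (i : ℕ) < r)).image Fin.val := by
    ext i
    simp only [Finset.mem_range, Finset.mem_image, Finset.mem_filter, Finset.mem_univ, true_and]
    constructor
    · intro hi
      exact ⟨⟨i, by omega⟩, hi, rfl⟩
    · rintro ⟨j, hj, rfl⟩
      exact hj
  rw [h, Finset.prod_image fun _ _ _ _ h => Fin.ext h]

variable [Fact p.Prime]

/-- The partial products of the first half. -/
theorem PP_eq (hMV : G_MV) (hVV : G_VV) (hp : 3 ≤ p) (hs : 1 ≤ s) (hh1 : 1 ≤ hh p)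
    (σ : Equiv.Perm (moved p s)) (m : ℕ) :
    PP p s σ m = Wm p s m *
      ((Tpr (vv p s) ((eqv hMV hh1 hs).symm.permCongr σ) (rr p s m) : (ZMod p)ˣ) : ZMod p) := by
  classical
  obtain ⟨hr, hfil⟩ := filter_eq hMV hh1 hs m
  have hmono := xx_mono (hMV p s hh1 hs).2.2.2.2.2.1 hs
  have hinj : Set.InjOn (xx p s) (Finset.range (rr p s m) : Set ℕ) := hmono.injective.injOn
  obtain ⟨hv1, hv2⟩ := hVV p s hp hs
  have hx0 : ∀ j ∈ Finset.range (rr p s m), (xx p s j : ZMod p) ≠ 0 := by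
    intro j hj
    have hj' : j < kk p s := lt_of_lt_of_le (Finset.mem_range.1 hj) hr
    rw [← hv1 ⟨j, hj'⟩]
    exact Units.ne_zero _
  have hprod0 : ∏ j ∈ Finset.range (rr p s m), (xx p s j : ZMod p) ≠ 0 :=
    Finset.prod_ne_zero_iff.2 hx0
  have hfac : (m.factorial : ZMod p) = (∏ j ∈ Finset.range (rr p s m), (xx p s j : ZMod p)) *
      ∏ i ∈ (Finset.Icc 1 m).filter (fun i => ¬ i ∈ moved p s), (i : ZMod p) := by
    have e1 : m.factorial = ∏ i ∈ Finset.Icc 1 m, i := by
      rw [← Finset.prod_Ico_id_eq_factorial]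
      exact Finset.prod_congr (by ext i; simp) fun _ _ => rfl
    rw [e1, Nat.cast_prod,
      ← Finset.prod_filter_mul_prod_filter_not (Finset.Icc 1 m) (· ∈ moved p s), hfil,
      Finset.prod_image hinj]
  have hW : Wm p s m = ∏ i ∈ (Finset.Icc 1 m).filter (fun i => ¬ i ∈ moved p s), (i : ZMod p) := by
    unfold Wm
    rw [hfac, mul_div_cancel_left₀ _ hprod0]
  have hP : PP p s σ m = (∏ j ∈ Finset.range (rr p s m), (fsth p s σ (xx p s j) : ZMod p)) *
      ∏ i ∈ (Finset.Icc 1 m).filter (fun i => ¬ i ∈ moved p s), (i : ZMod p) := by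
    unfold PP
    rw [← Finset.prod_filter_mul_prod_filter_not (Finset.Icc 1 m) (· ∈ moved p s), hfil,
      Finset.prod_image hinj]
    congr 1
    refine Finset.prod_congr rfl fun i hi => ?_
    unfold fsth
    rw [dif_neg (Finset.mem_filter.1 hi).2]
  rw [hP, hW, mul_comm]
  congr 1
  rw [prod_range hr (fun j => (fsth p s σ (xx p s j) : ZMod p))]
  unfold Tpr bprod
  rw [Units.coe_prod]
  refine Finset.prod_congr rfl fun j _ => ?_
  rw [hv1]
  congr 1
  unfold fsth
  have hj : xx p s j ∈ moved p s := (eqv hMV hh1 hs j).2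
  rw [dif_pos hj]
  have h1 : σ ⟨xx p s j, hj⟩ = eqv hMV hh1 hs ((eqv hMV hh1 hs).symm.permCongr σ j) := by
    simp [Equiv.permCongr_apply]
    rfl
  rw [h1, eqv_val]

end

theorem tgt_sub {p n0 m : ℕ} {x : ZMod p} (h : x ∈ tgt p n0 m) : x = -1 ∨ (Even m ∧ x = 1) := by
  unfold tgt at h
  split_ifs at h with h1 h2 h3
  · exact Or.inl (Finset.mem_singleton.1 h)
  · simp at h
  · rcases Finset.mem_insert.1 h with h | h
    · exact Or.inl h
    · exact Or.inr ⟨h3.1, Finset.mem_singleton.1 h⟩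
  · exact Or.inl (Finset.mem_singleton.1 h)

theorem g_str (hMV : G_MV) (hVV : G_VV) : Pool.Agent.Helper51.PF.G_STR := by
  classical
  intro p s n0 _ hp hs hE
  have hh1 : 1 ≤ hh p := by
    unfold hh
    omega
  obtain ⟨h1, h2, h3, h4, h5, h6, h7⟩ := hMV p s hh1 hs
  have hk1 : 1 ≤ kk p s := Nat.le_add_left 1 _
  refine pr_congr (eqv hMV hh1 hs).symm.permCongr _ _ fun σ => ?_
  have hPP := PP_eq hMV hVV hp hs hh1 σ
  constructor
  · intro h r hr1 hr2 hB
    simp only [BB, Finset.mem_filter, Finset.mem_univ, true_and] at hB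
    obtain ⟨m, hm1, hm2, hm3, hm4⟩ := hB
    apply h m hm1 hm2
    rw [hPP m, hm3]
    exact hm4
  · intro h m hm1 hm2 hT
    obtain ⟨hr, -⟩ := filter_eq hMV hh1 hs m
    obtain ⟨g1, g2⟩ := (h7 m (rr p s m) hr).1 rfl
    have hrk : rr p s m < kk p s := by
      refine lt_of_le_of_ne hr fun he => ?_
      rw [he] at g1
      rcases g1 with g1 | g1
      · omega
      · omega
    rcases Nat.eq_zero_or_pos (rr p s m) with h0 | h0
    · rw [h0] at g2
      have hm3 : m < s := by
        rcases g2 with g2 | g2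
        · omega
        · omega
      have hP : PP p s σ m = (m.factorial : ZMod p) := by
        rw [hPP m, h0]
        unfold Wm Tpr bprod
        rw [h0]
        simp
      rw [hP] at hT
      obtain ⟨e1, e2⟩ := hE m hm1 hm3
      rcases tgt_sub hT with h8 | ⟨h8, h9⟩
      · exact e1 h8
      · exact e2 h8 h9
    · apply h (rr p s m) h0 hrk
      simp only [BB, Finset.mem_filter, Finset.mem_univ, true_and]
      refine ⟨m, hm1, hm2, rfl, ?_⟩
      rw [← hPP m]
      exact hT

end Pool.Agent.Helper20.PF
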